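import Pool.Agent.Helper56.NL.Stm

/-! Package BASE of the project NL: the pairs `(x, w)`. -/

set_option autoImplicit false

namespace Pool.Agent.Helper58.NL

open Pool.Agent.Helper35.EM Pool.Agent.Helper56.SA Pool.Agent.Helper56.EM Pool.Agent.Helper56.NL
open Module Submodule Set ComplexConjugate

/-! ### Logarithms of algebraic numbers -/

/-- the logarithms of algebraic numbers -/
def Lam : Submodule ℚ ℂ where
  carrier := {w | Complex.exp w ∈ M.closure ∅}
  add_mem' := fun h h' => cl_exp_add h h'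
  zero_mem' := by
    change Complex.exp 0 ∈ M.closure ∅
    rw [Complex.exp_zero]
    simpa using cl_ratCast ∅ 1
  smul_mem' := fun q _ h => cl_exp_smul q h

theorem mem_Lam {w : ℂ} : w ∈ Lam ↔ Complex.exp w ∈ M.closure ∅ := Iff.rfl

theorem conj_Lam {w : ℂ} (h : w ∈ Lam) : conj w ∈ Lam := by
  rw [mem_Lam] at *
  rw [Complex.exp_conj]
  exact conj_mem (by simp) h

theorem countable_Lam : (Lam : Set ℂ).Countable := by
  have h1 : (M.closure ∅ : Set ℂ).Countable := by
    have h2 : (M.closure ∅ : Set ℂ) ⊆ {z : ℂ | IsAlgebraic ℚ z} := by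
      intro z hz
      exact mem_cl_empty.1 hz
    exact (Algebraic.countable ℚ ℂ).mono h2
  exact h1.preimage_cexp

theorem exists_basis : ∃ b : Set ℂ, b ⊆ {z | z ∈ Lam ∧ (conj z = z ∨ conj z = -z)} ∧
    (2 * (Real.pi : ℂ) * Complex.I) ∈ b ∧ (∀ z ∈ Lam, z ∈ span ℚ b) ∧
    LinearIndependent ℚ (Subtype.val : b → ℂ) := by
  have h0 : (2 * (Real.pi : ℂ) * Complex.I) ∈ {z | z ∈ Lam ∧ (conj z = z ∨ conj z = -z)} := by
    refine ⟨cl_exp_two_pi_I ∅, Or.inr ?_⟩
    rw [map_mul, map_mul, Complex.conj_I, Complex.conj_ofReal, map_ofNat]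
    ring
  have hs : LinearIndepOn ℚ id ({(2 * (Real.pi : ℂ) * Complex.I)} : Set ℂ) :=
    LinearIndepOn.singleton Complex.two_pi_I_ne_zero
  obtain ⟨b, hb, h1, h2, h3⟩ := exists_linearIndepOn_id_extension hs (singleton_subset_iff.2 h0)
  refine ⟨b, hb, h1 rfl, fun z hz => ?_, h3⟩
  have e : z = (2⁻¹ : ℚ) • (z + conj z) + (2⁻¹ : ℚ) • (z - conj z) := by
    rw [← smul_add, add_add_sub_cancel, ← two_smul ℚ z, smul_smul]
    norm_num
  rw [e]
  refine add_mem (Submodule.smul_mem _ _ (h2 ⟨Lam.add_mem hz (conj_Lam hz), Or.inl ?_⟩))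
    (Submodule.smul_mem _ _ (h2 ⟨Lam.sub_mem hz (conj_Lam hz), Or.inr ?_⟩))
  · rw [map_add, Complex.conj_conj, add_comm]
  · rw [map_sub, Complex.conj_conj, neg_sub]

/-! ### Linear algebra -/

theorem indep_pow {p : ℂ} (hp : p ∉ M.closure ∅) : LinearIndependent kk fun n : ℕ => p ^ n := by
  have ht : Transcendental kk p := by
    intro h
    exact hp (kk_mem.1 (cl_idem h))
  have hinj : Function.Injective (Polynomial.aeval (R := kk) p) :=
    transcendental_iff_injective.1 ht
  have h := (Polynomial.basisMonomials kk).linearIndependent.map'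
    (Polynomial.aeval (R := kk) p).toLinearMap (LinearMap.ker_eq_bot.2 hinj)
  have e : (fun n : ℕ => p ^ n) = (Polynomial.aeval (R := kk) p).toLinearMap ∘
      (Polynomial.basisMonomials kk) := by
    funext n
    simp [Polynomial.coe_basisMonomials]
  rw [e]
  exact h

theorem indep_up {J : Type} {x : J → ℂ} (hx : LinearIndependent kk x) {n : ℕ} {u : Fin n → ℂ}
    (hu : ∀ i, u i ∈ span ℚ (range x)) (hl : LinearIndependent ℚ u) :
    LinearIndependent kk u := by
  choose a ha using fun i => Finsupp.mem_span_range_iff_exists_finsupp.1 (hu i)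
  rw [Fintype.linearIndependent_iff] at hl ⊢
  intro c hc i
  by_contra hci
  obtain ⟨φ, hφ⟩ : ∃ φ : Module.Dual ℚ kk, φ (c i) ≠ 0 := by
    by_contra hcon
    push Not at hcon
    exact hci ((Module.forall_dual_apply_eq_zero_iff ℚ (c i)).1 hcon)
  -- the coefficients vanish
  have h1 : ∀ j, ∑ i, (a i j) • c i = 0 := by
    have h2 : Finsupp.linearCombination kk x
        (∑ i, c i • (a i).mapRange (algebraMap ℚ kk) (map_zero _)) = 0 := by
      rw [map_sum, ← hc]
      refine Finset.sum_congr rfl fun i _ => ?_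
      rw [map_smul]
      congr 1
      rw [← ha i, Finsupp.linearCombination_apply, Finsupp.sum_mapRange_index (by simp)]
      refine Finsupp.sum_congr fun j _ => ?_
      rw [algebraMap_smul]
    have h3 := linearIndependent_iff.1 hx _ h2
    intro j
    have h4 := DFunLike.congr_fun h3 j
    rw [Finsupp.finsetSum_apply] at h4
    rw [Finsupp.coe_zero, Pi.zero_apply] at h4
    rw [← h4]
    refine Finset.sum_congr rfl fun i _ => ?_
    rw [Finsupp.smul_apply, Finsupp.mapRange_apply, smul_eq_mul, Algebra.smul_def, mul_comm]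
  have h5 : ∑ i, φ (c i) • u i = 0 := by
    have h6 : ∑ i, φ (c i) • a i = 0 := by
      ext j
      rw [Finsupp.finsetSum_apply, Finsupp.coe_zero, Pi.zero_apply]
      have h7 := congrArg φ (h1 j)
      rw [map_sum, map_zero] at h7
      rw [← h7]
      refine Finset.sum_congr rfl fun i _ => ?_
      rw [Finsupp.smul_apply, smul_eq_mul, map_smul, smul_eq_mul, mul_comm]
    have h8 : Finsupp.linearCombination ℚ x (∑ i, φ (c i) • a i) = 0 := by rw [h6, map_zero]
    rw [map_sum] at h8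
    rw [← h8]
    refine Finset.sum_congr rfl fun i _ => ?_
    rw [map_smul, ← ha i, Finsupp.linearCombination_apply]
  exact hφ (hl _ h5 i)

theorem g_strictMono {D : ℕ} (hD : 1 ≤ D) : StrictMono (g D) := by
  have hpos : ∀ n, 0 < g D n := by
    intro n
    induction n with
    | zero => exact Nat.one_pos
    | succ n ih => exact Nat.mul_pos ih (Nat.pow_pos (by omega))
  refine strictMono_nat_of_lt_succ fun n => ?_
  change g D n < g D n * (D + 1) ^ (n + 1)
  have h1 : 1 < (D + 1) ^ (n + 1) := Nat.one_lt_pow (by omega) (by omega)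
  nlinarith [hpos n]

/-! ### Approximation -/

theorem approx {p : ℝ} (hp : 0 < p) (e : ℕ) (c δ : ℝ) (hδ : 0 < δ) :
    ∃ s : ℚ, s ≠ 0 ∧ |(s : ℝ) * p ^ e - c| < δ := by
  have hpe : 0 < p ^ e := pow_pos hp e
  rcases le_or_gt 0 c with hc | hc
  · obtain ⟨s, h1, h2⟩ := exists_rat_btwn (show c / p ^ e < (c + δ) / p ^ e by
      rw [div_lt_div_iff_of_pos_right hpe]; linarith)
    rw [div_lt_iff₀ hpe] at h1
    rw [lt_div_iff₀ hpe] at h2
    refine ⟨s, ?_, ?_⟩
    · rintro rfl
      rw [Rat.cast_zero, zero_mul] at h1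
      linarith
    · rw [abs_lt]; constructor <;> linarith
  · obtain ⟨s, h1, h2⟩ := exists_rat_btwn (show (c - δ) / p ^ e < c / p ^ e by
      rw [div_lt_div_iff_of_pos_right hpe]; linarith)
    rw [div_lt_iff₀ hpe] at h1
    rw [lt_div_iff₀ hpe] at h2
    refine ⟨s, ?_, ?_⟩
    · rintro rfl
      rw [Rat.cast_zero, zero_mul] at h2
      linarith
    · rw [abs_lt]; constructor <;> linarith

/-- the new value of a basis element -/
theorem value {p : ℝ} (hp : 0 < p) (e : ℕ) {δ : ℝ} (hδ : 0 < δ) {w : ℂ}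
    (hw : conj w = w ∨ conj w = -w) :
    ∃ (τ : ℂ) (s : ℚ), (τ = 1 ∨ τ = Complex.I) ∧ s ≠ 0 ∧
      ((conj τ = τ ∧ conj w = w) ∨ (conj τ = -τ ∧ conj w = -w)) ∧
      ‖τ * (s * (p : ℂ) ^ e) - w‖ < δ := by
  rcases hw with hw | hw
  · obtain ⟨c, rfl⟩ := Complex.conj_eq_iff_real.1 hw
    obtain ⟨s, h1, h2⟩ := approx hp e c δ hδ
    refine ⟨1, s, Or.inl rfl, h1, Or.inl ⟨map_one _, hw⟩, ?_⟩
    have e1 : 1 * ((s : ℂ) * (p : ℂ) ^ e) - (c : ℂ) = (((s : ℝ) * p ^ e - c : ℝ) : ℂ) := by
      push_cast; ring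
    rw [e1, Complex.norm_real, Real.norm_eq_abs]
    exact h2
  · have h3 : w = Complex.I * (w.im : ℂ) := by
      have h4 := congrArg Complex.re hw
      rw [Complex.conj_re, Complex.neg_re] at h4
      apply Complex.ext
      · simp; linarith
      · simp
    obtain ⟨s, h1, h2⟩ := approx hp e w.im δ hδ
    refine ⟨Complex.I, s, Or.inr rfl, h1, Or.inr ⟨Complex.conj_I, hw⟩, ?_⟩
    have e1 : Complex.I * ((s : ℂ) * (p : ℂ) ^ e) - w =
        Complex.I * (((s : ℝ) * p ^ e - w.im : ℝ) : ℂ) := by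
      conv_lhs => rw [h3]
      push_cast; ring
    rw [e1, norm_mul, Complex.norm_I, one_mul, Complex.norm_real, Real.norm_eq_abs]
    exact h2

/-! ### The space -/

/-- the space of pairs -/
noncomputable def PP {J : Type} (x w : J → ℂ) : Submodule ℚ (ℂ × ℂ) := span ℚ (range fun j => (x j, w j))

theorem mem_PP {J : Type} {x w : J → ℂ} {q : ℂ × ℂ} : q ∈ PP x w ↔ ∃ a : J →₀ ℚ,
    q.1 = Finsupp.linearCombination ℚ x a ∧ q.2 = Finsupp.linearCombination ℚ w a := by
  unfold PP
  rw [Finsupp.mem_span_range_iff_exists_finsupp]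
  have e1 : ∀ a : J →₀ ℚ, (a.sum fun i r => r • ((x i, w i) : ℂ × ℂ)).1 =
      Finsupp.linearCombination ℚ x a := fun a =>
    Finsupp.apply_linearCombination ℚ (LinearMap.fst ℚ ℂ ℂ) (fun j => (x j, w j)) a
  have e2 : ∀ a : J →₀ ℚ, (a.sum fun i r => r • ((x i, w i) : ℂ × ℂ)).2 =
      Finsupp.linearCombination ℚ w a := fun a =>
    Finsupp.apply_linearCombination ℚ (LinearMap.snd ℚ ℂ ℂ) (fun j => (x j, w j)) a
  constructor
  · rintro ⟨a, rfl⟩
    exact ⟨a, e1 a, e2 a⟩
  · rintro ⟨a, h1, h2⟩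
    exact ⟨a, Prod.ext (by rw [e1, h1]) (by rw [e2, h2])⟩

theorem gauss_add {z z' : ℂ} (h : Gauss z) (h' : Gauss z') : Gauss (z + z') := by
  obtain ⟨a, b, rfl⟩ := h
  obtain ⟨a', b', rfl⟩ := h'
  exact ⟨a + a', b + b', by push_cast; ring⟩

theorem gauss_mul {z : ℂ} (r : ℚ) (h : Gauss z) : Gauss ((r : ℂ) * z) := by
  obtain ⟨a, b, rfl⟩ := h
  exact ⟨r * a, r * b, by push_cast; ring⟩

theorem gauss_zero : Gauss 0 := ⟨0, 0, by simp⟩

/-- **Package BASE.** -/
theorem base : S_BASE := by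
  intro D hD ε hε m W hW
  obtain ⟨b, hb, h0, hspan, hli⟩ := exists_basis
  have hcount : Countable b := (countable_Lam.mono fun z hz => (hb hz).1).to_subtype
  obtain ⟨ν0, hν0⟩ := exists_injective_nat b
  let j0 : b := ⟨2 * (Real.pi : ℂ) * Complex.I, h0⟩
  let ν : b → ℕ := fun j => Equiv.swap 0 (ν0 j0) (ν0 j)
  have hν : Function.Injective ν := (Equiv.injective _).comp hν0
  have hν1 : ν j0 = 0 := Equiv.swap_apply_right _ _
  have hcomb : ∀ z ∈ Lam, ∃ a : b →₀ ℚ, z = Finsupp.linearCombination ℚ (Subtype.val : b → ℂ) a := by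
    intro z hz
    have h1 := hspan z hz
    rw [← Subtype.range_coe (s := b)] at h1
    obtain ⟨a, ha⟩ := Finsupp.mem_span_range_iff_exists_finsupp.1 h1
    exact ⟨a, ha.symm⟩
  choose a ha using fun j : Fin m => hcomb (W j) (hW j)
  set A : ℝ := ∑ j, ∑ k ∈ (a j).support, |(a j k : ℝ)| with hA
  have hA0 : 0 ≤ A := Finset.sum_nonneg fun j _ => Finset.sum_nonneg fun k _ => abs_nonneg _
  set δ : ℝ := ε / (A + 1) with hδ
  have hδ0 : 0 < δ := div_pos hε (by linarith)
  refine ⟨min (δ / 2) 1, lt_min (by linarith) one_pos, fun p hp hpt => ?_⟩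
  have hp1 : |p - Real.pi| < δ / 2 := lt_of_lt_of_le hp (min_le_left _ _)
  have hp2 : |p - Real.pi| < 1 := lt_of_lt_of_le hp (min_le_right _ _)
  have hp0 : 0 < p := by
    have := (abs_lt.1 hp2).1
    have := Real.pi_gt_three
    linarith
  have hval : ∀ j : b, ∃ (τ : ℂ) (s : ℚ), (τ = 1 ∨ τ = Complex.I) ∧ s ≠ 0 ∧
      ((conj τ = τ ∧ conj (j : ℂ) = j) ∨ (conj τ = -τ ∧ conj (j : ℂ) = -j)) ∧
      ‖τ * (s * (p : ℂ) ^ g D (ν j)) - j‖ < δ ∧ (j = j0 → τ = Complex.I ∧ s = 2) := by
    intro j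
    by_cases hj : j = j0
    · subst hj
      refine ⟨Complex.I, 2, Or.inr rfl, two_ne_zero, Or.inr ⟨Complex.conj_I, ?_⟩, ?_,
        fun _ => ⟨rfl, rfl⟩⟩
      · change conj (2 * (Real.pi : ℂ) * Complex.I) = -(2 * (Real.pi : ℂ) * Complex.I)
        rw [map_mul, map_mul, Complex.conj_I, Complex.conj_ofReal, map_ofNat]
        ring
      · rw [hν1]
        change ‖Complex.I * (((2 : ℚ) : ℂ) * (p : ℂ) ^ 1) - 2 * (Real.pi : ℂ) * Complex.I‖ < δ
        have e1 : Complex.I * (((2 : ℚ) : ℂ) * (p : ℂ) ^ 1) - 2 * (Real.pi : ℂ) * Complex.I =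
            Complex.I * ((2 * (p - Real.pi) : ℝ) : ℂ) := by
          push_cast; ring
        rw [e1, norm_mul, Complex.norm_I, one_mul, Complex.norm_real, Real.norm_eq_abs, abs_mul,
          abs_two]
        linarith
    · obtain ⟨τ, s, h1, h2, h3, h4⟩ := value hp0 (g D (ν j)) hδ0 (hb j.2).2
      exact ⟨τ, s, h1, h2, h3, h4, fun h => absurd h hj⟩
  choose τ s hτ hs hc hn h2 using hval
  set x : b → ℂ := fun j => τ j * (s j * (p : ℂ) ^ g D (ν j)) with hx
  have hconj : ∀ j, conj (x j) = conj (τ j) * (s j * (p : ℂ) ^ g D (ν j)) := by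
    intro j
    rw [hx]
    simp only [map_mul, map_pow, Complex.conj_ofReal, map_ratCast]
  have hck : ∀ j, τ j * s j ∈ kk := by
    intro j
    refine mul_mem ?_ (kk_mem.2 (cl_ratCast ∅ (s j)))
    rcases hτ j with h | h
    · rw [h]; exact one_mem kk
    · rw [h]; exact kk_mem.2 (cl_I ∅)
  have hc0 : ∀ j, τ j * s j ≠ 0 := by
    intro j
    refine mul_ne_zero ?_ (by exact_mod_cast hs j)
    rcases hτ j with h | h
    · rw [h]; exact one_ne_zero
    · rw [h]; exact Complex.I_ne_zero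
  have hxs : ∀ j, x j = (⟨τ j * s j, hck j⟩ : kk) • (p : ℂ) ^ g D (ν j) := by
    intro j
    rw [Algebra.smul_def]
    change τ j * (s j * (p : ℂ) ^ g D (ν j)) = (τ j * s j) * (p : ℂ) ^ g D (ν j)
    ring
  have hxk : LinearIndependent kk x := by
    have h3 : LinearIndependent kk fun j : b => (p : ℂ) ^ g D (ν j) :=
      (indep_pow hpt).comp (fun j : b => g D (ν j)) ((g_strictMono hD).injective.comp hν)
    have h4 := h3.units_smul (w := fun j =>
      Units.mk0 (⟨τ j * s j, hck j⟩ : kk) fun h => hc0 j (congrArg Subtype.val h))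
    have e : x = (fun j => Units.mk0 (⟨τ j * s j, hck j⟩ : kk) fun h =>
        hc0 j (congrArg Subtype.val h)) • fun j : b => (p : ℂ) ^ g D (ν j) := by
      funext j
      rw [hxs j]
      rfl
    rw [e]
    exact h4
  have hxq : LinearIndependent ℚ x := by
    refine hxk.restrict_scalars ?_
    intro r r' h
    have h3 : algebraMap ℚ kk r = algebraMap ℚ kk r' := by
      simpa [Algebra.smul_def] using h
    exact (algebraMap ℚ kk).injective h3
  have hfst : ∀ q ∈ PP x (Subtype.val : b → ℂ), q.1 ∈ span ℚ (range x) := by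
    intro q hq
    obtain ⟨c, h3, -⟩ := mem_PP.1 hq
    rw [h3]
    exact Finsupp.mem_span_range_iff_exists_finsupp.2 ⟨c, rfl⟩
  refine ⟨PP x Subtype.val, ⟨?_, ?_, ?_, ?_, ?_, ?_, ?_, ?_, ?_⟩, ?_⟩
  · -- conjugation
    intro q hq
    induction hq using Submodule.span_induction with
    | mem q hq =>
      obtain ⟨j, rfl⟩ := hq
      change (conj (x j), conj (j : ℂ)) ∈ PP x Subtype.val
      rcases hc j with ⟨h3, h4⟩ | ⟨h3, h4⟩
      · rw [hconj, h3, h4]
        exact subset_span ⟨j, rfl⟩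
      · rw [hconj, h3, h4, neg_mul, ← Prod.neg_mk]
        exact neg_mem (subset_span ⟨j, rfl⟩)
    | zero =>
      change (conj (0 : ℂ), conj (0 : ℂ)) ∈ PP x Subtype.val
      rw [map_zero]
      exact zero_mem _
    | add q q' _ _ h3 h4 =>
      change (conj (q.1 + q'.1), conj (q.2 + q'.2)) ∈ PP x Subtype.val
      rw [map_add, map_add]
      exact add_mem h3 h4
    | smul r q _ h3 =>
      change (conj (r • q.1), conj (r • q.2)) ∈ PP x Subtype.val
      have hconjq : ∀ z : ℂ, conj (r • z) = r • conj z := by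
        intro z
        rw [Algebra.smul_def, Algebra.smul_def, map_mul, eq_ratCast, map_ratCast]
      rw [hconjq, hconjq]
      exact Submodule.smul_mem _ r h3
  · -- the kernel
    have h3 : (x j0, (j0 : ℂ)) ∈ PP x Subtype.val := subset_span ⟨j0, rfl⟩
    have h4 : x j0 = 2 * Complex.I * (p : ℂ) := by
      rw [hx]
      simp only
      rw [(h2 j0 rfl).1, (h2 j0 rfl).2, hν1]
      change Complex.I * (((2 : ℚ) : ℂ) * (p : ℂ) ^ 1) = _
      push_cast
      ring
    rw [h4] at h3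
    exact h3
  · intro q hq h3
    obtain ⟨c, h4, h5⟩ := mem_PP.1 hq
    rw [h3] at h4
    have h6 := linearIndependent_iff.1 hxq c h4.symm
    rw [h6, map_zero] at h5
    exact Prod.ext h3 h5
  · intro q hq h3
    obtain ⟨c, h4, h5⟩ := mem_PP.1 hq
    rw [h3] at h5
    have h6 := linearIndependent_iff.1 hli c h5.symm
    rw [h6, map_zero] at h4
    exact Prod.ext h4 h3
  · intro q hq
    have h3 : PP x (Subtype.val : b → ℂ) ≤ Lam.comap (LinearMap.snd ℚ ℂ ℂ) := by
      refine span_le.2 ?_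
      rintro _ ⟨j, rfl⟩
      exact (hb j.2).1
    exact h3 hq
  · intro w hw
    obtain ⟨c, hc'⟩ := hcomb w hw
    exact ⟨Finsupp.linearCombination ℚ x c, mem_PP.2 ⟨c, rfl, hc'⟩⟩
  · intro n u hu hl
    refine indep_up hxk (fun i => ?_) hl
    obtain ⟨w, hw⟩ := hu i
    exact hfst _ hw
  · intro q hq
    induction hq using Submodule.span_induction with
    | mem q hq =>
      obtain ⟨j, rfl⟩ := hq
      change x j ∈ _
      rw [hxs]
      exact Submodule.smul_mem _ _ (subset_span ⟨ν j, rfl⟩)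
    | zero => exact zero_mem _
    | add q q' _ _ h3 h4 => exact add_mem h3 h4
    | smul r q _ h3 => exact Submodule.smul_of_tower_mem _ r h3
  · intro q hq
    induction hq using Submodule.span_induction with
    | mem q hq =>
      obtain ⟨j, rfl⟩ := hq
      refine ⟨Polynomial.monomial (g D (ν j)) (τ j * s j), fun n => ?_, ?_⟩
      · rw [Polynomial.coeff_monomial]
        split_ifs with hn'
        · rcases hτ j with h | h
          · rw [h]; exact ⟨s j, 0, by simp⟩
          · rw [h]; exact ⟨0, s j, by push_cast; ring⟩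
        · exact gauss_zero
      · rw [Polynomial.eval_monomial]
        change τ j * (s j * (p : ℂ) ^ g D (ν j)) = (τ j * s j) * (p : ℂ) ^ g D (ν j)
        ring
    | zero => exact ⟨0, fun n => by rw [Polynomial.coeff_zero]; exact gauss_zero, by simp⟩
    | add q q' _ _ h3 h4 =>
      obtain ⟨P, h5, h6⟩ := h3
      obtain ⟨P', h5', h6'⟩ := h4
      refine ⟨P + P', fun n => by rw [Polynomial.coeff_add]; exact gauss_add (h5 n) (h5' n), ?_⟩
      rw [Polynomial.eval_add, ← h6, ← h6']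
      rfl
    | smul r q _ h3 =>
      obtain ⟨P, h5, h6⟩ := h3
      refine ⟨Polynomial.C (r : ℂ) * P, fun n => by
        rw [Polynomial.coeff_C_mul]; exact gauss_mul r (h5 n), ?_⟩
      rw [Polynomial.eval_mul, Polynomial.eval_C, ← h6]
      change r • q.1 = (r : ℂ) * q.1
      rw [Algebra.smul_def]
      rfl
  · intro j
    refine ⟨Finsupp.linearCombination ℚ x (a j), mem_PP.2 ⟨a j, rfl, ha j⟩, ?_⟩
    have e1 : Finsupp.linearCombination ℚ x (a j) - W j =
        ∑ k ∈ (a j).support, (a j k : ℂ) * (x k - k) := by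
      rw [ha j, Finsupp.linearCombination_apply, Finsupp.linearCombination_apply, Finsupp.sum,
        Finsupp.sum, ← Finset.sum_sub_distrib]
      refine Finset.sum_congr rfl fun k _ => ?_
      rw [← smul_sub, Algebra.smul_def]
      rfl
    rw [e1]
    have h3 : ∑ k ∈ (a j).support, |(a j k : ℝ)| ≤ A :=
      Finset.single_le_sum (f := fun j => ∑ k ∈ (a j).support, |(a j k : ℝ)|)
        (fun j _ => Finset.sum_nonneg fun k _ => abs_nonneg _) (Finset.mem_univ j)
    calc ‖∑ k ∈ (a j).support, (a j k : ℂ) * (x k - k)‖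
        ≤ ∑ k ∈ (a j).support, ‖(a j k : ℂ) * (x k - k)‖ := norm_sum_le _ _
      _ ≤ ∑ k ∈ (a j).support, |(a j k : ℝ)| * δ := by
        refine Finset.sum_le_sum fun k _ => ?_
        rw [norm_mul]
        have e2 : ‖(a j k : ℂ)‖ = |(a j k : ℝ)| := by
          have : ((a j k : ℚ) : ℂ) = (((a j k : ℚ) : ℝ) : ℂ) := by push_cast; rfl
          rw [this, Complex.norm_real, Real.norm_eq_abs]
        rw [e2]
        exact mul_le_mul_of_nonneg_left (hn k).le (abs_nonneg _)
      _ = (∑ k ∈ (a j).support, |(a j k : ℝ)|) * δ := by rw [Finset.sum_mul]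
      _ ≤ A * δ := mul_le_mul_of_nonneg_right h3 hδ0.le
      _ < (A + 1) * δ := by linarith
      _ = ε := by rw [hδ]; field_simp

end Pool.Agent.Helper58.NL
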